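import Pool.Agent.H.MP_f8f5a4_an.B

namespace Pool.Agent.Results.MP_f8f5a4_an.Yes

/-- Infinite paths starting at level `0`, with the topology induced from the product of discrete
spaces (the cylinder topology). -/
abbrev Paths {V E : Type} (s r : E → V) (lv : V → ℕ) : Type :=
  {x : ℕ → E // lv (s (x 0)) = 0 ∧ ∀ i, r (x i) = s (x (i + 1))}

/-- `e` is the largest edge among the edges with the same range. -/
def Maxi {V E : Type} (r : E → V) (o : E → ℤ) (e : E) : Prop := ∀ e', r e' = r e → o e' ≤ o e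

/-- `e` is the smallest edge among the edges with the same range. -/
def Mini {V E : Type} (r : E → V) (o : E → ℤ) (e : E) : Prop := ∀ e', r e' = r e → o e ≤ o e'

/-- `f` is the successor of `e` among the edges with the same range. -/
def Succ {V E : Type} (r : E → V) (o : E → ℤ) (e f : E) : Prop :=
  r f = r e ∧ o e < o f ∧ ∀ e', r e' = r e → o e < o e' → o f ≤ o e'

theorem result (V E : Type) [Countable V] [Countable E] [TopologicalSpace E] [DiscreteTopology E]
    (s r : E → V) (lv : V → ℕ) (hV : ∀ n, {v | lv v = n}.Infinite)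
    (hE : ∀ e, lv (r e) = lv (s e) + 1) (hs : ∀ v, ∃ e, s e = v)
    (hr : ∀ v, 0 < lv v → ∃ e, r e = v) (hf : ∀ v, {e | r e = v}.Finite) :
    ∃ o : E → ℤ, (∀ e e', r e = r e' → o e = o e' → e = e') ∧
      ∃ T : Paths s r lv → Paths s r lv, Function.Bijective T ∧
        @Measurable _ _ (borel _) (borel _) T ∧
        ∀ x n, (∀ i, i < n → Maxi r o (x.1 i)) → ¬ Maxi r o (x.1 n) →
          Succ r o (x.1 n) ((T x).1 n) ∧ (∀ i, n < i → (T x).1 i = x.1 i) ∧
            ∀ i, i < n → Mini r o ((T x).1 i) := by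
  obtain ⟨v, -⟩ := (hV 0).nonempty
  have : Nonempty E := ⟨(hs v).choose⟩
  obtain ⟨o, ho, T, h1, h2, h3⟩ := H.MP_f8f5a4_an.main hE hr hf
  refine ⟨o, ho, T, h1, h2, fun x n a b => ?_⟩
  obtain ⟨-, c1, c2, c3⟩ := h3 x n a b
  exact ⟨c1, c2, fun i hi e he => neg_le_neg_iff.1 (c3 i hi e he)⟩

end Pool.Agent.Results.MP_f8f5a4_an.Yes
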